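import Mathlib

/-!
# Total domination and path covers in regular graphs

We refute the Graffiti.pc conjecture that every regular graph `G` satisfies
`γ_t(G) ≥ 2 π(G)`, where `γ_t` is the total domination number and `π` the path
covering number.

The counterexample is a connected 8-regular graph on 37 vertices: take four disjoint
copies of `K_9` minus one edge `u_i v_i` (`i = 0, 1, 2, 3`), and one further vertex `s`
adjacent to `u_i` and `v_i` for every `i`.  The set `{s, u_0, u_1, u_2, u_3}` is total
dominating, so `γ_t ≤ 5`; deleting `s` leaves four components, so every path cover has at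
least three paths and `2 π ≥ 6`.
-/

namespace Pool.Agent.Results.MP_f6a359_co.RegularCounterexample

/-- `S` is a total dominating set of `G`: every vertex of `G` has a neighbour in `S`. -/
def IsTotalDominating {V : Type} (G : SimpleGraph V) (S : Finset V) : Prop :=
  ∀ v : V, ∃ w ∈ S, G.Adj v w

/-- The total domination number of `G`: the least size of a total dominating set. -/
noncomputable def totalDominationNumber {V : Type} (G : SimpleGraph V) : ℕ :=
  sInf {k : ℕ | ∃ S : Finset V, S.card = k ∧ IsTotalDominating G S}

/-- `G` has a path cover consisting of `k` paths: pairwise vertex-disjoint paths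
`P 0, …, P (k-1)` of `G` such that every vertex of `G` lies on one of them
(a path may consist of a single vertex). -/
def HasPathCover {V : Type} (G : SimpleGraph V) (k : ℕ) : Prop :=
  ∃ P : Fin k → (Σ u : V, Σ v : V, G.Path u v),
    (∀ i j : Fin k, i ≠ j → ∀ x : V,
      ¬ (x ∈ (P i).2.2.1.support ∧ x ∈ (P j).2.2.1.support)) ∧
    ∀ x : V, ∃ i : Fin k, x ∈ (P i).2.2.1.support

/-- The path covering number of `G`: the least number of paths in a path cover. -/
noncomputable def pathCoverNumber {V : Type} (G : SimpleGraph V) : ℕ :=
  sInf {k : ℕ | HasPathCover G k}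

/-- The vertex set: `none` is the special vertex `s`; `some (i, a)` is vertex `a` of blob `i`. -/
abbrev Vtx : Type := Option (Fin 4 × Fin 9)

/-- The (Boolean) adjacency relation of the counterexample. -/
def adjB : Vtx → Vtx → Bool
  | none, none => false
  | none, some (_, a) => decide (a.val < 2)
  | some (_, a), none => decide (a.val < 2)
  | some (i, a), some (j, b) =>
      decide (i = j) && decide (a ≠ b) && !(decide (a.val < 2) && decide (b.val < 2))

/-- The counterexample graph. -/
def G : SimpleGraph Vtx where
  Adj x y := adjB x y = true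
  symm := ⟨by
    intro x y h
    rcases x with _ | ⟨i, a⟩ <;> rcases y with _ | ⟨j, b⟩
    · exact h
    · exact h
    · exact h
    · simp only [adjB, Bool.and_eq_true, decide_eq_true_eq, Bool.not_eq_true',
        Bool.and_eq_false_iff, decide_eq_false_iff_not] at h ⊢
      exact ⟨⟨h.1.1.symm, h.1.2.symm⟩, h.2.symm⟩⟩
  loopless := ⟨by
    intro x h
    rcases x with _ | ⟨i, a⟩ <;> simp_all [adjB]⟩

instance : DecidableRel G.Adj := fun x y => inferInstanceAs (Decidable (adjB x y = true))

theorem adj_iff (x y : Vtx) : G.Adj x y ↔ adjB x y = true := Iff.rfl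

theorem same_blob {i j : Fin 4} {a b : Fin 9} (h : G.Adj (some (i, a)) (some (j, b))) : i = j := by
  rw [adj_iff] at h
  simp only [adjB, Bool.and_eq_true, decide_eq_true_eq] at h
  exact h.1.1

/-- A walk avoiding `s` stays in one blob. -/
theorem walk_in_blob {u v : Vtx} (w : G.Walk u v) (h : none ∉ w.support) :
    ∀ i a, u = some (i, a) → ∀ x ∈ w.support, ∃ b, x = some (i, b) := by
  induction w with
  | nil =>
    intro i a hu x hx
    simp at hx
    exact ⟨a, by rw [hx, hu]⟩
  | @cons u v' w' hadj p ih =>
    intro i a hu x hx
    rw [SimpleGraph.Walk.support_cons, List.mem_cons] at hx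
    have hp : none ∉ p.support := by
      intro hc
      exact h (by rw [SimpleGraph.Walk.support_cons]; exact List.mem_cons_of_mem _ hc)
    rcases v' with _ | ⟨j, b⟩
    · exact absurd p.start_mem_support hp
    · subst hu
      have hij := same_blob hadj
      subst hij
      rcases hx with hx | hx
      · exact ⟨a, hx⟩
      · exact ih hp i b rfl x hx

/-- A path starting at `s` visits at most one blob. -/
theorem path_from_s {v : Vtx} (w : G.Walk none v) (hw : w.IsPath) :
    ∃ i : Fin 4, ∀ x ∈ w.support, x = none ∨ ∃ b, x = some (i, b) := by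
  cases w with
  | nil => exact ⟨0, fun x hx => Or.inl (by simpa using hx)⟩
  | @cons _ v' _ hadj p =>
    rw [SimpleGraph.Walk.cons_isPath_iff] at hw
    rcases v' with _ | ⟨j, b⟩
    · exact absurd p.start_mem_support hw.2
    · refine ⟨j, fun x hx => ?_⟩
      rw [SimpleGraph.Walk.support_cons, List.mem_cons] at hx
      rcases hx with hx | hx
      · exact Or.inl hx
      · exact Or.inr (walk_in_blob p hw.2 j b rfl x hx)

/-- The blobs visited by a walk. -/
def blobs {u v : Vtx} (w : G.Walk u v) : Finset (Fin 4) :=
  Finset.univ.filter fun i => ∃ b, some (i, b) ∈ w.support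

theorem blobs_card_le_one {u v : Vtx} (w : G.Walk u v) (h : none ∉ w.support) :
    (blobs w).card ≤ 1 := by
  rcases u with _ | ⟨i, a⟩
  · exact absurd w.start_mem_support h
  · have : blobs w ⊆ {i} := by
      intro j hj
      simp only [blobs, Finset.mem_filter, Finset.mem_univ, true_and] at hj
      obtain ⟨b, hb⟩ := hj
      obtain ⟨c, hc⟩ := walk_in_blob w h i a rfl _ hb
      simp only [Option.some.injEq, Prod.mk.injEq] at hc
      simp [hc.1]
    simpa using Finset.card_le_card this

theorem blobs_card_le_two {u v : Vtx} (w : G.Walk u v) (hw : w.IsPath) (h : none ∈ w.support) :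
    (blobs w).card ≤ 2 := by
  obtain ⟨i, hi⟩ := path_from_s (w.takeUntil none h).reverse (hw.takeUntil h).reverse
  obtain ⟨j, hj⟩ := path_from_s (w.dropUntil none h) (hw.dropUntil h)
  have : blobs w ⊆ {i, j} := by
    intro l hl
    simp only [blobs, Finset.mem_filter, Finset.mem_univ, true_and] at hl
    obtain ⟨b, hb⟩ := hl
    rw [← w.take_spec h, SimpleGraph.Walk.mem_support_append_iff] at hb
    rcases hb with hb | hb
    · rcases hi _ (by rw [SimpleGraph.Walk.support_reverse]; exact List.mem_reverse.2 hb) with
        hc | ⟨c, hc⟩
      · simp at hc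
      · simp only [Option.some.injEq, Prod.mk.injEq] at hc
        simp [hc.1]
    · rcases hj _ hb with hc | ⟨c, hc⟩
      · simp at hc
      · simp only [Option.some.injEq, Prod.mk.injEq] at hc
        simp [hc.1]
  exact (Finset.card_le_card this).trans Finset.card_le_two

/-- Every path cover has at least three paths. -/
theorem three_le_of_cover {k : ℕ} (h : HasPathCover G k) : 3 ≤ k := by
  obtain ⟨P, hdisj, hcov⟩ := h
  classical
  have hk : ∀ i : Fin k, (blobs (P i).2.2.1).card ≤
      1 + if none ∈ (P i).2.2.1.support then 1 else 0 := by
    intro i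
    split_ifs with h
    · exact blobs_card_le_two _ (P i).2.2.2 h
    · exact blobs_card_le_one _ h
  have hsum : ∑ i : Fin k, (blobs (P i).2.2.1).card ≤ k + 1 := by
    calc ∑ i : Fin k, (blobs (P i).2.2.1).card
        ≤ ∑ i : Fin k, (1 + if none ∈ (P i).2.2.1.support then 1 else 0) :=
          Finset.sum_le_sum fun i _ => hk i
      _ = k + (Finset.univ.filter fun i : Fin k => none ∈ (P i).2.2.1.support).card := by
          rw [Finset.sum_add_distrib, Finset.card_filter]
          simp
      _ ≤ k + 1 := by
          gcongr
          rw [Finset.card_le_one]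
          intro i hi j hj
          simp only [Finset.mem_filter, Finset.mem_univ, true_and] at hi hj
          by_contra hne
          exact hdisj i j hne none ⟨hi, hj⟩
  have huniv : (Finset.univ : Finset (Fin 4)) ⊆
      Finset.univ.biUnion fun i : Fin k => blobs (P i).2.2.1 := by
    intro l _
    obtain ⟨i, hi⟩ := hcov (some (l, 0))
    rw [Finset.mem_biUnion]
    exact ⟨i, Finset.mem_univ _, by
      simp only [blobs, Finset.mem_filter, Finset.mem_univ, true_and]; exact ⟨0, hi⟩⟩
  have h4 : 4 ≤ ∑ i : Fin k, (blobs (P i).2.2.1).card := by
    calc 4 = (Finset.univ : Finset (Fin 4)).card := by simp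
      _ ≤ _ := Finset.card_le_card huniv
      _ ≤ _ := Finset.card_biUnion_le
  omega

/-- Path covers exist: the trivial one by single vertices. -/
theorem exists_cover : ∃ k, HasPathCover G k := by
  classical
  refine ⟨Fintype.card Vtx, fun i => ⟨(Fintype.equivFin Vtx).symm i,
    (Fintype.equivFin Vtx).symm i, SimpleGraph.Path.nil⟩, ?_, ?_⟩
  · intro i j hij x hx
    simp only [SimpleGraph.Path.nil, SimpleGraph.Walk.support_nil, List.mem_singleton] at hx
    exact hij ((Fintype.equivFin Vtx).symm.injective (hx.1.symm.trans hx.2))
  · intro x
    exact ⟨Fintype.equivFin Vtx x, by simp [SimpleGraph.Path.nil]⟩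

theorem three_le_pathCoverNumber : 3 ≤ pathCoverNumber G := by
  have hne : {k : ℕ | HasPathCover G k}.Nonempty := exists_cover
  exact three_le_of_cover (Nat.sInf_mem hne)

theorem totalDominationNumber_le : totalDominationNumber G ≤ 5 := by
  apply Nat.sInf_le
  refine ⟨{none, some (0, 0), some (1, 0), some (2, 0), some (3, 0)}, by decide, ?_⟩
  unfold IsTotalDominating
  decide

theorem regular : G.IsRegularOfDegree 8 := by
  unfold SimpleGraph.IsRegularOfDegree
  decide +kernel

theorem reach_none (x : Vtx) : G.Reachable x none := by
  rcases x with _ | ⟨i, a⟩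
  · exact SimpleGraph.Reachable.refl _
  · by_cases ha : a.val < 2
    · exact SimpleGraph.Adj.reachable (by rw [adj_iff]; simpa [adjB] using ha)
    · have h1 : G.Adj (some (i, a)) (some (i, 0)) := by
        rw [adj_iff]
        have : a ≠ 0 := by
          rintro rfl
          exact ha (by decide)
        simp [adjB, this]
        omega
      have h2 : G.Adj (some (i, 0)) none := by
        rw [adj_iff]
        simp [adjB]
      exact h1.reachable.trans h2.reachable

theorem connected : G.Connected where
  preconnected x y := (reach_none x).trans (reach_none y).symm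
  nonempty := ⟨none⟩

/-- **Disproof of the Graffiti.pc conjecture.**  There is a finite connected 8-regular simple
graph `G` with `γ_t(G) < 2 π(G)`. -/
theorem result :
    ∃ (V : Type) (_ : Fintype V) (G : SimpleGraph V) (_ : DecidableRel G.Adj),
      G.Connected ∧ G.IsRegularOfDegree 8 ∧
        totalDominationNumber G < 2 * pathCoverNumber G := by
  refine ⟨Vtx, inferInstance, G, inferInstance, connected, regular, ?_⟩
  have h2 := three_le_pathCoverNumber
  have h3 := totalDominationNumber_le
  omega

end Pool.Agent.Results.MP_f6a359_co.RegularCounterexample
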